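import Pool.Agent.Helper40.JZ.Stmts

/-!
The masses of the types `(a, D)` with `q ∣ a` for `q → ∞` (MP_7a8f48_an).
-/

open Finset Filter MeasureTheory Topology
open scoped ComplexConjugate InnerProductSpace

namespace Pool.Agent.Helper40.JZ

open Pool.Agent.Helper16.AZ (T E Op mm fc Ind)
open UnitAddTorus (mFourier)

theorem qlc_zero {r : ℕ} (q : ℕ) (D : T r → T r → U) (g : T r → ℂ) :
    ms q D 0 g = ms q (fun _ _ => 0) 0 g := by
  simp [ms, pj]

theorem st_QLC (_hT : ST_TOR) (hM : ST_MSF) (hF : ST_FIB) (hN : ST_NTF) (hQ : ST_QBZ) :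
    ST_QLC := by
  intro r θ f hf G ε hG hε
  obtain ⟨_, hF2⟩ := hF r
  obtain ⟨hL, hS, hI, _⟩ := hF2 G hG
  -- the base
  have hb : ∀ᶠ q : ℕ in atTop, ms q (fun _ _ => 0) 0 (fib G 0) <
      ‖∫ y, G y ∂(mm (r + 1))‖ ^ 2 + ε / 2 := by
    have h1 := hQ r (fib G 0) (hL 0)
    rw [← hI] at h1
    exact h1.eventually (eventually_lt_nhds (by linarith))
  obtain ⟨q₁, hq₁⟩ := eventually_atTop.1 hb
  -- the tail
  set c : ℤ → ℝ := fun a => ∫ x, ‖fib G a x‖ ^ 2 ∂(mm r) with hc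
  have hc0 : ∀ a, 0 ≤ c a := fun a => integral_nonneg fun x => by positivity
  obtain ⟨F, hF⟩ : ∃ F : Finset ℤ, (∫ y, ‖G y‖ ^ 2 ∂(mm (r + 1))) - ε / 2 < ∑ a ∈ F, c a := by
    have h1 := (hS : Tendsto _ _ _).eventually
      (eventually_gt_nhds (show (∫ y, ‖G y‖ ^ 2 ∂(mm (r + 1))) - ε / 2 <
        ∫ y, ‖G y‖ ^ 2 ∂(mm (r + 1)) by linarith))
    obtain ⟨F, hF⟩ := h1.exists
    exact ⟨F, hF⟩
  have htail : ∀ J : Finset ℤ, Disjoint F J → ∑ a ∈ J, c a ≤ ε / 2 := by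
    intro J hJ
    have h1 : ∑ a ∈ F, c a + ∑ a ∈ J, c a ≤ ∫ y, ‖G y‖ ^ 2 ∂(mm (r + 1)) := by
      rw [← sum_union hJ]
      exact sum_le_hasSum _ (fun a _ => hc0 a) hS
    linarith
  obtain ⟨q₂, hq₂⟩ : ∃ q₂ : ℕ, ∀ a ∈ F, a.natAbs < q₂ := by
    refine ⟨∑ a ∈ F, a.natAbs + 1, fun a ha => ?_⟩
    have h1 : a.natAbs ≤ ∑ a ∈ F, a.natAbs :=
      single_le_sum (f := fun a : ℤ => a.natAbs) (fun i _ => Nat.zero_le _) ha
    omega
  refine ⟨max q₁ q₂, fun q hq hqp t ht hdiv => ?_⟩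
  have hqa : q₁ ≤ q := (le_max_left _ _).trans hq
  have hqb : q₂ ≤ q := (le_max_right _ _).trans hq
  have hq1 : 1 ≤ q := hqp.one_lt.le
  have h0 := hq₁ q hqa
  match t, ht, hdiv with
  | none, _, _ =>
    change ms q (fun _ _ => 0) 0 (fib G 0) ≤ _
    linarith
  | some (a, D), ht, hdiv =>
    obtain ⟨ha, hlift⟩ := ht
    simp only at ha hlift
    have hqa' : (q : ℤ) ∣ a := hdiv (a, D) rfl
    have hsum : Summable fun j : ℤ => ms q D j (fib G (j * a)) :=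
      (hN r θ f q (some (a, D)) G G hq1 hf.measurable ⟨ha, hlift⟩ hG hG).2.2.1 (a, D) rfl
    change ∑' j : ℤ, ms q D j (fib G (j * a)) ≤ _
    have hle : ∀ j : ℤ, ms q D j (fib G (j * a)) ≤ c (j * a) := fun j =>
      (hM r q D j (fib G (j * a)) (fib G (j * a)) hq1 hlift.1 (hL _) (hL _)).2.2.1
    have hnn : ∀ j : ℤ, 0 ≤ ms q D j (fib G (j * a)) := fun j =>
      (hM r q D j (fib G (j * a)) (fib G (j * a)) hq1 hlift.1 (hL _) (hL _)).2.1
    refine hsum.tsum_le_of_sum_le fun s => ?_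
    have h1 : ∑ j ∈ s, ms q D j (fib G (j * a)) ≤
        ms q D 0 (fib G (0 * a)) + ∑ j ∈ s.erase 0, ms q D j (fib G (j * a)) := by
      by_cases h0s : (0 : ℤ) ∈ s
      · exact (add_sum_erase s (fun j : ℤ => ms q D j (fib G (j * a))) h0s).ge
      · rw [erase_eq_of_notMem h0s]
        linarith [hnn 0]
    have h2 : ∑ j ∈ s.erase 0, ms q D j (fib G (j * a)) ≤ ε / 2 := by
      refine (sum_le_sum fun j _ => hle j).trans ?_
      have h3 : ∑ j ∈ s.erase 0, c (j * a) = ∑ b ∈ (s.erase 0).image (fun j => j * a), c b := by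
        rw [sum_image]
        intro x _ y _ hxy
        exact mul_right_cancel₀ ha hxy
      rw [h3]
      refine htail _ (disjoint_left.2 fun b hb hb' => ?_)
      obtain ⟨j, hj, rfl⟩ := mem_image.1 hb'
      have hj0 : j ≠ 0 := (mem_erase.1 hj).1
      have h4 := hq₂ _ hb
      have h5 : q ≤ (j * a).natAbs := by
        have h6 : (q : ℤ) ∣ j * a := Dvd.dvd.mul_left hqa' j
        have h7 : q ∣ (j * a).natAbs := by
          have := Int.natAbs_dvd_natAbs.2 h6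
          simpa using this
        exact Nat.le_of_dvd (Int.natAbs_pos.2 (mul_ne_zero hj0 ha)) h7
      omega
    rw [zero_mul, qlc_zero] at h1
    linarith

end Pool.Agent.Helper40.JZ
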